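import Mathlib
import Pool.Agent.Work.MP_327059_nt.GL.StmtsT
import Pool.Agent.Work.MP_327059_nt.Bd.B01

/-!
# Theorem S: Schanuel's conjecture for almost all points of large rational spaces on a line.
Definitions.
-/

set_option autoImplicit false

namespace Pool.Agent.Work.MP_8da9ea_nt.S

open MvPolynomial Pool.Agent.Work.MP_327059_nt.GL

/-- Finite transcendence type with exponent `Q`. -/
def FT (Q : ℕ) {m : ℕ} (b : Fin m → ℂ) : Prop :=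
  ∃ C : ℝ, 1 ≤ C ∧ ∀ (P : MvPolynomial (Fin m) ℤ) (t : ℝ), 1 ≤ t → (P.totalDegree : ℝ) ≤ t →
    len P ≤ Real.exp t → aeval b P ≠ 0 → Real.exp (-(C * t ^ Q)) ≤ ‖aeval b P‖

/-- Subexponential measure of linear independence. -/
def LM {m : ℕ} (b : Fin m → ℂ) : Prop :=
  ∀ c : ℕ, ∃ T₀ : ℕ, ∀ T : ℕ, T₀ ≤ T → ∀ w : Fin m → ℤ, w ≠ 0 →
    (∀ j, |w j| ≤ ((T ^ c : ℕ) : ℤ)) → Real.exp (-(T : ℝ)) ≤ ‖∑ j, (w j : ℂ) * b j‖

/-- Measure of linear independence with exponent `Q`. -/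
def MS (Q : ℕ) {n : ℕ} (x : Fin n → ℂ) : Prop :=
  ∃ B : ℝ, 1 ≤ B ∧ ∀ s : Fin n → ℤ, s ≠ 0 → ∀ S : ℝ, 1 ≤ S → (∀ i, |(s i : ℝ)| ≤ S) →
    Real.exp (-(B * S ^ Q)) ≤ ‖∑ i, (s i : ℂ) * x i‖

/-- Taylor coefficients of `z^a e^{βz}`. -/
noncomputable def tc (a : ℕ) (β : ℂ) (k : ℕ) : ℂ :=
  if a ≤ k then β ^ (k - a) / ((k - a).factorial : ℂ) else 0

/-- The exponentials `e^{b_j x_i}` alone. -/
noncomputable def ce {n m : ℕ} (b : Fin m → ℂ) (x : Fin n → ℂ) : Fin n × Fin m → ℂ :=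
  fun q => Complex.exp (b q.2 * x q.1)

/-- Rank of the forms on the derivations killing `v` and `b`. -/
noncomputable def rkb {n m : ℕ} (x : Fin n → ℂ) (y : Fin n → Fin m → ℂ) (v : Fin n → ℂ)
    (b : Fin m → ℂ) : ℕ :=
  Module.finrank ℂ ((TT v ⊓ TT b).map (om x y v))

/-- Schanuel's inequality for the tuple `(b_1 z, …, b_m z)`. -/
def Sch {m : ℕ} (b : Fin m → ℂ) (z : ℂ) : Prop :=
  ∃ s : Fin m → Fin m ⊕ Fin m, AlgebraicIndependent ℚ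
    (fun i => Sum.elim (fun j => b j * z) (fun j => Complex.exp (b j * z)) (s i))

end Pool.Agent.Work.MP_8da9ea_nt.S
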