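import Mathlib
import Pool.Agent.Work.MP_8da9ea_nt.S.Defs

/-!
# Theorem S: statements of the items
-/

set_option autoImplicit false

namespace Pool.Agent.Work.MP_8da9ea_nt.S

open MvPolynomial Pool.Agent.Work.MP_327059_nt.GL

/-- X01: algebraic numbers have finite type -/
def S_FTalg : Prop := ∀ (m : ℕ) (b : Fin m → ℂ), (∀ j, IsAlgebraic ℚ (b j)) → FT 1 b

/-- X02 -/
def S_FTLM : Prop := ∀ (Q m : ℕ) (b : Fin m → ℂ), FT Q b → LinearIndependent ℚ b → LM b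

/-- X03: Siegel's lemma over a finitely generated field -/
def S_FF : Prop := ∀ (σ : Type) [Fintype σ] (τ : ℕ) (θ : σ → ℂ), TrLe τ θ →
  ∃ C : ℕ, 1 ≤ C ∧ ∀ (Λ : Type) [Fintype Λ] (D : ℕ) (H : ℝ) (P : Λ → MvPolynomial σ ℤ),
    1 ≤ H → (∀ l, (P l).totalDegree ≤ D) → (∀ l, len (P l) ≤ H) →
    C * (D + 1) ^ τ ≤ Fintype.card Λ →
      ∃ p : Λ → ℤ, p ≠ 0 ∧ (∀ l, |(p l : ℝ)| ≤ Fintype.card Λ * (H * (C : ℝ) ^ (D + 1))) ∧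
        ∑ l, (p l : ℂ) * aeval θ (P l) = 0

/-- X04: order of vanishing at the origin -/
def S_Ord : Prop := ∀ (m A W : ℕ) (b : Fin m → ℂ), LinearIndependent ℚ b →
  ∀ p : Ix m A W → ℂ, p ≠ 0 → ∃ k : ℕ, k ≤ A * W ^ m ∧
    ∑ x, p x * tc (x.1 : ℕ) (bw b x) k ≠ 0

/-- X05: a zero close to the origin makes the first coefficient small -/
def S_TayLow : Prop := ∀ (m A W : ℕ) (b : Fin m → ℂ) (p : Ix m A W → ℂ) (N : ℕ) (z : ℂ),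
  z ≠ 0 → ‖z‖ ≤ 1 / 2 →
  ∑ x, p x * (z ^ (x.1 : ℕ) * Complex.exp (bw b x * z)) = 0 →
  (∀ k < N, ∑ x, p x * tc (x.1 : ℕ) (bw b x) k = 0) →
    ‖∑ x, p x * tc (x.1 : ℕ) (bw b x) N‖ ≤ 2 * (∑ x, ‖p x‖ * Real.exp ‖bw b x‖) * ‖z‖

/-- X06: lower bound for a non-zero Taylor coefficient -/
def S_CoefLow : Prop := ∀ (Q m : ℕ) (b : Fin m → ℂ), FT Q b → ∃ C : ℝ, 1 ≤ C ∧
  ∀ (A W N : ℕ) (h : ℝ) (p : Ix m A W → ℤ), 1 ≤ h → (∀ x, |(p x : ℝ)| ≤ Real.exp h) →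
    ∑ x, (p x : ℂ) * tc (x.1 : ℕ) (bw b x) N ≠ 0 →
      Real.exp (-(C * (((N : ℝ) + 1) * (A + W + h)) ^ (Q + 2))) ≤
        ‖∑ x, (p x : ℂ) * tc (x.1 : ℕ) (bw b x) N‖

/-- X07: the measure is automatic -/
def S_Meas : Prop := ∀ (Qb m e : ℕ), e ≤ 1 → 2 ≤ m + e → ∃ Q : ℕ, ∀ b : Fin m → ℂ,
  FT Qb b → LinearIndependent ℚ b → ∀ (n : ℕ) (x : Fin n → ℂ), LinearIndependent ℚ x →
    (e = 1 → TrLe (m + e - 2) (cd b x) → MS Q x) ∧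
    (e = 0 → TrLe (m + e - 2) (ce b x) → MS Q x)

/-- X08: multiplicative relations close to the true point are impossible -/
def S_NoRelYX : Prop := ∀ (m q c Q : ℕ), ∃ n₀ : ℕ, ∀ b : Fin m → ℂ, LM b →
  ∀ n : ℕ, n₀ ≤ n → ∀ x : Fin n → ℂ, MS Q x →
    ∃ T₀ : ℕ, ∀ T : ℕ, T₀ ≤ T → ∀ y' : Fin n → Fin m → ℂ,
      (∀ i j, ‖y' i j - Complex.exp (b j * x i)‖ ≤ Real.exp (-(T : ℝ) ^ (2 * Q + 2))) →
      ∀ w : Fin m → ℤ, w ≠ 0 → (∀ j, |w j| ≤ ((2 * T ^ q) ^ c : ℕ)) →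
        (2 * T ^ q) ^ c * cntY T y' w < (T + 1) ^ n

/-- X09: additive relations close to the true point are impossible -/
def S_NoRelLX : Prop := ∀ (q c Q : ℕ), ∃ n₀ : ℕ, ∀ n : ℕ, n₀ ≤ n → ∀ x : Fin n → ℂ, MS Q x →
    ∃ T₀ : ℕ, ∀ T : ℕ, T₀ ≤ T → ∀ l' : Fin n → ℂ,
      (∀ i, ‖l' i - x i‖ ≤ Real.exp (-(T : ℝ) ^ (2 * Q + 2))) →
        (2 * T ^ q) ^ c * cntL T l' < (T + 1) ^ n

/-- X10: no polynomial of degree `≤ T^q` vanishes on the perturbed points -/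
def S_NoZeroX : Prop := ∀ (m q Q : ℕ), ∃ n₀ : ℕ, ∀ b : Fin m → ℂ, LM b →
  ∀ n : ℕ, n₀ ≤ n → ∀ x : Fin n → ℂ, MS Q x →
    ∃ T₀ : ℕ, ∀ T : ℕ, T₀ ≤ T → ∀ (l' : Fin n → ℂ) (y' : Fin n → Fin m → ℂ),
      (∀ i, ‖l' i - x i‖ ≤ Real.exp (-(T : ℝ) ^ (2 * Q + 2))) →
      (∀ i j, ‖y' i j - Complex.exp (b j * x i)‖ ≤ Real.exp (-(T : ℝ) ^ (2 * Q + 2))) →
      ∀ P : MvPolynomial (Fin (m + 1)) ℂ, (∀ i, P.degreeOf i ≤ T ^ q) →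
        (∀ s : Fin n → ℕ, (∀ i, s i ≤ 2 ^ m * T) → eval (pt l' y' s) P = 0) → P = 0

/-- X11: the auxiliary function, general `q` -/
def S_PsiX : Prop := ∀ (m e q : ℕ), e ≤ 1 → 2 ≤ m + e → (m + e + 2) ^ 2 ≤ q →
  ∀ (b : Fin m → ℂ) (R0 : ℝ), 1 ≤ R0 → ∃ T₀ : ℕ, ∀ T : ℕ, T₀ ≤ T →
    ∃ p : (Fin (m + e + 1) → Ix m (T ^ (q * e)) (T ^ q)) → ℤ,
      p ≠ 0 ∧ (∀ x, |p x| ≤ (2 : ℤ) ^ (T ^ (q + 1))) ∧
      ∀ z : Fin (m + e + 1) → ℂ, (∀ i, ‖z i‖ ≤ R0 * T) →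
        ‖∑ x, (p x : ℂ) * ∏ i, (z i ^ ((x i).1 : ℕ) * Complex.exp (bw b (x i) * z i))‖ ≤
          Real.exp (-((T : ℝ) ^ ((q + 1) * (m + e - 1) + 2) / 4))

/-- X12: large transcendence degree for arbitrary points -/
def S_TIeX : Prop := ∀ (Qb m e : ℕ), e ≤ 1 → 2 ≤ m + e → ∃ n₀ : ℕ, ∀ b : Fin m → ℂ,
  FT Qb b → LinearIndependent ℚ b → ∀ n : ℕ, n₀ ≤ n → ∀ x : Fin n → ℂ,
    LinearIndependent ℚ x →
      (e = 1 → ¬ TrLe (m + e - 2) (cd b x)) ∧ (e = 0 → ¬ TrLe (m + e - 2) (ce b x))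

/-- X13: the transcendence input for arbitrary points -/
def S_TIX : Prop :=
  ∀ Qb m : ℕ, ∃ n₀ : ℕ, ∀ b : Fin m → ℂ, FT Qb b → LinearIndependent ℚ b →
    ∀ n : ℕ, n₀ ≤ n → ∀ x : Fin n → ℂ, LinearIndependent ℚ x →
      (∃ s : Fin m → Fin n ⊕ Fin n × Fin m, AlgebraicIndependent ℚ (fun i => cd b x (s i))) ∧
      (∃ s : Fin (m - 1) → Fin n × Fin m,
        AlgebraicIndependent ℚ (fun i => Complex.exp (b (s i).2 * x (s i).1)))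

/-- X17: rational combinations -/
def S_FTlin : Prop := ∀ (Q m k : ℕ) (b : Fin m → ℂ) (c : Fin k → Fin m → ℚ), FT Q b →
  FT (Q + 1) (fun t => ∑ j, (c t j : ℂ) * b j)

/-- X18: normalisation -/
def S_FTdiv : Prop := ∀ (Q m : ℕ) (b : Fin m → ℂ) (j0 : Fin m), b j0 ≠ 0 → FT Q b →
  FT (Q + 1) (fun j => b j / b j0)

/-- X19: counting over `ℚ(v)` and `ℚ(v, b)` -/
def S_CntB : Prop := ∀ (m κ r : ℕ) (V : IntermediateField ℚ ℂ) (b : Fin m → ℂ) (Z : Set ℂ),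
  TrLe κ b →
  (∀ (k : ℕ) (f : Fin k → ℂ), (∀ t, f t ∈ Z) → AlgebraicIndependent
    (IntermediateField.adjoin ℚ ((V : Set ℂ) ∪ Set.range b)) f → k ≤ r) →
  ∀ (k : ℕ) (f : Fin k → ℂ), (∀ t, f t ∈ Z ∪ Set.range b) → AlgebraicIndependent V f →
    k ≤ κ + r

/-- X20: the output of the Ax type argument for derivations killing `v` and `b` -/
def S_AxOutB : Prop := ∀ (n m : ℕ) (x : Fin n → ℂ) (y : Fin n → Fin m → ℂ) (v : Fin n → ℂ)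
  (b : Fin m → ℂ), (∀ i j, y i j ≠ 0) → ∃ G : AddSubgroup (Fin n → Fin m → ℤ),
    ∀ (k : ℕ) (f : Fin k → ℂ),
      (∀ t, f t = ∑ i, v i * x i ∨ ∃ ξ ∈ G, f t = mon y ξ) →
      AlgebraicIndependent (IntermediateField.adjoin ℚ (Set.range v ∪ Set.range b)) f →
        k + ug G v ≤ rkb x y v b

/-- X14: rank for arbitrary points -/
def S_GCoreX : Prop := ∀ Qb m : ℕ, ∃ n₀ : ℕ, ∀ b : Fin m → ℂ, FT Qb b →
  LinearIndependent ℚ b → ∀ n : ℕ, n₀ ≤ n → ∀ x : Fin n → ℂ,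
    LinearIndependent ℚ x → ∀ κ : ℕ, TrLe κ b →
      ∃ v : Fin n → ℂ, m ≤ κ + rkb x (fun i j => Complex.exp (b j * x i)) v b

/-- X15: from the rank to rational points -/
def S_GPX : Prop := ∀ (n m ρ κ : ℕ) (x : Fin n → ℂ) (b : Fin m → ℂ) (v : Fin n → ℂ),
  ρ ≤ rkb x (fun i j => Complex.exp (b j * x i)) v b →
  (∃ s : Fin κ → Fin m, AlgebraicIndependent ℚ (fun i => b (s i))) →
    ∃ P : MvPolynomial (Fin n) ℂ, P ≠ 0 ∧ P.IsHomogeneous ρ ∧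
      ∀ w : Fin n → ℚ, MvPolynomial.eval (fun i => (w i : ℂ)) P ≠ 0 →
        ∃ (s : Fin κ → Fin m) (o : Fin ρ → Option (Fin m)), AlgebraicIndependent ℚ
          (Sum.elim (fun i => b (s i)) (fun i => (o i).elim (∑ i, (w i : ℂ) * x i)
            (fun j => Complex.exp (b j * ∑ i, (w i : ℂ) * x i))))

/-- X16: **Theorem S** -/
def S_MainS : Prop := ∀ Qb m : ℕ, ∃ n₀ : ℕ, ∀ b : Fin m → ℂ, FT Qb b →
  LinearIndependent ℚ b → ∀ n : ℕ, n₀ ≤ n → ∀ x : Fin n → ℂ, LinearIndependent ℚ x →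
    ∃ P : MvPolynomial (Fin n) ℂ, P ≠ 0 ∧ P.totalDegree ≤ m ∧
      ∀ w : Fin n → ℚ, MvPolynomial.eval (fun i => (w i : ℂ)) P ≠ 0 →
        Sch b (∑ i, (w i : ℂ) * x i)

end Pool.Agent.Work.MP_8da9ea_nt.S
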