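import Pool.Agent.Work.MP_8da9ea_nt.Bd.B04
import Pool.Agent.Work.MP_8da9ea_nt.Bd.B05
import Pool.Agent.Work.MP_327059_nt.GL.Asm

/-!
# Theorem S: assembly
-/

set_option autoImplicit false

namespace Pool.Agent.Work.MP_8da9ea_nt.S

open Pool.Agent.Work.MP_327059_nt.GL

theorem x_FTalg : S_FTalg := pr_FTalg

theorem x_Meas : S_Meas := pr_Meas pr_FF pr_Ord pr_TayLow pr_CoefLow

theorem x_NoRelYX : S_NoRelYX := pr_NoRelYX (pr_ManyInd pr_RankBox) pr_Sieg pr_Pert pr_NearLog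

theorem x_NoZeroX : S_NoZeroX :=
  pr_NoZeroX (pr_ZE pr_ZE0 (pr_ZStep pr_ZRes pr_Tr)) x_NoRelYX pr_NoRelLX

theorem x_TIX : S_TIX :=
  pr_TIX (pr_TIeX x_Crit (pr_PsiX pr_PLm pr_Tay) pr_Val pr_Tensor x_NoZeroX x_Meas pr_FTLM)

theorem x_AxOutB : S_AxOutB := pr_AxOutB (pr_AxOut (pr_AxImg pr_Stab pr_AxKey))

theorem x_GCoreX : S_GCoreX :=
  pr_GCoreX x_TIX x_AxOutB (pr_Cases pr_GenComb)
    (pr_LinAlg pr_GenRank pr_RankInc pr_AnnExt pr_DoubleAnn) pr_DenseK pr_CntB pr_FTlin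

/-- Theorem S -/
theorem x_MainS : S_MainS := pr_MainS x_GCoreX pr_GPX pr_FTdiv

end Pool.Agent.Work.MP_8da9ea_nt.S
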